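import Pool.Agent.Y107.SDMul

/-!
# Descent of self-dual Chow-Kunneth decompositions

`𝒱` is a class of smooth projective geometrically irreducible varieties over the field `k` closed
under products (for example all of them), `C` the Chow groups with rational coefficients (in the
form of their formal properties, `IsChowProj`) and `H` a Weil cohomology theory (`IsWeilProj`).

Let `f : Y → X` be a morphism of varieties of the same dimension `d` and of degree `N ≠ 0`, and
`D ∈ CH^1(X)` a divisor class. If `Y` has a Chow-Kunneth decomposition, not necessarily self-dual and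
not related to `f`, for which the intersection with `f^* D` is homogeneous and induces isomorphisms
of Chow motives `(f^* D)^(d-n) : h^n(Y) → h^(2d-n)(Y)(d-n)` (`n ≤ d`), then `X` has a self-dual
Chow-Kunneth decomposition with the same property for `D`. More generally, this holds for a direct
factor `h(X)` of a twist of `h(Y)`, if the embedding and the projection commute with
correspondences `L_X` (equal to its transpose) and `L_Y` of degree one.

No hypothesis of finite dimensionality or nilpotence is made: under such a hypothesis direct factors
inherit Chow-Kunneth decompositions, but in general the Kunneth components of a direct factor are not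
known to lift.
-/

open CategoryTheory AlgebraicGeometry

set_option autoImplicit false

universe u v w

namespace Pool.Agent.Results.MP_8a7054_ag.LefschetzDescent

open Pool.Agent.H914 Pool.Agent.W492.BB Pool.Agent.TH133 Pool.Agent.Y107 Pool.Agent.W550.Corr

/-- Chow-Kunneth decompositions satisfying motivic hard Lefschetz descend along morphisms of non-zero
degree, and along direct factors compatible with the Lefschetz correspondences, to self-dual ones. -/
theorem result {k : Type u} [Field k] {𝒱 : VarClass k} (C : TheoryData.{u, v, 0} 𝒱 ℚ)
    [IsChowProj C] {K : Type w} [Field K] (H : WeilTheoryData.{u, v, w} C K) [IsWeilProj H]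
    (X Y : 𝒱.Obj) :
    (∀ (f : Y ⟶ X) (N : ℚ) (D : C.A X), Y.dim = X.dim → N ≠ 0 → C.push f 1 = N • 1 →
      C.Deg 1 D → (∃ π, IsCK H Y π ∧ MotivicLefschetz C (C.mulCorr (C.pull f D)) π) →
      ∃ π, SelfDualLefschetz H (C.mulCorr D) π) ∧
    (∀ (LX : C.A (X.prod X)) (LY : C.A (Y.prod Y)), C.Deg ((X.dim : ℤ) + 1) LX →
      C.Deg ((Y.dim : ℤ) + 1) LY → tp C LX = LX → LefschetzFactor C LX LY →
      (∃ π, IsCK H Y π ∧ MotivicLefschetz C LY π) → ∃ π, SelfDualLefschetz H LX π) := by
  constructor
  · intro f _ _ hd hN hf hD h
    obtain ⟨π, h1, h2, h3⟩ := exists_selfDual_of_cover f hd hN hf hD h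
    exact ⟨π, h1, h2, h3⟩
  · rintro _ _ hLX hLY hs ⟨_, _, _, he, ha, hb, hab, hLa, hLb⟩ h
    obtain ⟨π, h1, h2, h3⟩ := exists_selfDual_of_factor he hLX hLY hs ha hb hab hLa hLb h
    exact ⟨π, h1, h2, h3⟩

end Pool.Agent.Results.MP_8a7054_ag.LefschetzDescent
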