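import Pool.Agent.Y107.SDMul

/-!
# Self-dual Chow-Kunneth decompositions and the equation `[L, [L, z]] = L`

`𝒱` is a class of smooth projective geometrically irreducible varieties over the field `k` closed
under products (for example all of them), `C` the Chow groups with rational coefficients (in the
form of their formal properties, `IsChowProj`) and `H` a Weil cohomology theory (`IsWeilProj`).

Let `X` be a variety of dimension `d` and `L ∈ CH^(d+1)(X × X)` a correspondence of degree one, equal
to its transpose and satisfying hard Lefschetz on the cohomology of `X`. The following conditions are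
equivalent, and they imply an equivariant form of (4):

1. the linear equation `[L, [L, z]] = L` has a solution `z ∈ CH^(d-1)(X × X)`;
2. the powers of `L` are von Neumann regular: `L^c ∘ y ∘ L^c = L^c` for some `y ∈ CH^(d-c)(X × X)`;
3. `X` has a Chow-Kunneth decomposition for which `L` is homogeneous and induces isomorphisms of Chow
   motives `L^(d-n) : h^n(X) → h^(2d-n)(X)(d-n)` (`n ≤ d`);
4. `X` has a self-dual Chow-Kunneth decomposition with the properties of 3.

No hypothesis of finite dimensionality or nilpotence is made. The proof uses the theorem of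
Jacobson-Morozov in the (infinite dimensional) algebra of correspondences.
-/

open CategoryTheory AlgebraicGeometry

set_option autoImplicit false

universe u v w

namespace Pool.Agent.Results.MP_8a7054_ag.LefschetzEquation

open Pool.Agent.H914 Pool.Agent.W492.BB Pool.Agent.TH133 Pool.Agent.Y107 Pool.Agent.W550.Corr

/-- The existence of a self-dual Chow-Kunneth decomposition satisfying motivic hard Lefschetz for `L`
is equivalent to the existence of any Chow-Kunneth decomposition satisfying it, to the solvability of
`[L, [L, z]] = L`, and to the regularity of the powers of `L`; the decomposition can be chosen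
equivariant for a given finite group commuting with `L`. For the intersection with a divisor class
`D` the equation is `(D × 1 - 1 × D)^2 z = Δ_* D` in `CH^(d+1)(X × X)`, and the regularity means that
`Δ_*(D^c)` is a multiple of `D^c × D^c` for all `c`. -/
theorem result {k : Type u} [Field k] {𝒱 : VarClass k} (C : TheoryData.{u, v, 0} 𝒱 ℚ)
    [IsChowProj C] {K : Type w} [Field K] (H : WeilTheoryData.{u, v, w} C K) [IsWeilProj H]
    (X : 𝒱.Obj) :
    (∀ L : C.A (X.prod X), C.Deg ((X.dim : ℤ) + 1) L → tp C L = L → HardLefschetzCor H X L →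
      (InSquare C L ↔ PowersRegular C L) ∧
      (InSquare C L ↔ ∃ π, IsCK H X π ∧ MotivicLefschetz C L π) ∧
      (InSquare C L ↔ ∃ π, SelfDualLefschetz H L π) ∧
      (InSquare C L → ∀ (G : Type) [Group G] [Finite G] (ρ : G → C.A (X.prod X)), GroupCor C ρ →
        (∀ g, C.comp L (ρ g) = C.comp (ρ g) L) →
        ∃ π, SelfDualLefschetz H L π ∧ ∀ g n, C.comp (π n) (ρ g) = C.comp (ρ g) (π n))) ∧
    ∀ D : C.A X, (InSquare C (C.mulCorr D) ↔ DivisorEquation C D) ∧
      (PowersRegular C (C.mulCorr D) ↔ DiagonalMultiples C D) := by
  refine ⟨fun L hL hs hHL => ?_, fun D => ⟨inSquare_mulCorr D, powersRegular_mulCorr D⟩⟩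
  obtain ⟨h1, h2, h3⟩ := inSquare_iff_all (H := H) hL hs hHL
  refine ⟨h1, h2, ⟨fun h => ?_, fun ⟨π, h⟩ => h3.2 ⟨π, h.ck, h.selfDual, h.lefschetz⟩⟩,
    fun hS G _ _ ρ hρ hρL => ?_⟩
  · obtain ⟨π, h4, h5, h6⟩ := h3.1 h
    exact ⟨π, h4, h5, h6⟩
  · obtain ⟨π, h4, h5, h6, h7⟩ := exists_equivariant hL hs hHL hS G ρ hρ hρL
    exact ⟨π, ⟨h4, h5, h6⟩, h7⟩

end Pool.Agent.Results.MP_8a7054_ag.LefschetzEquation
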