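import Pool.Agent.Y106.CG.TopDual

/-!
# Self-dual motives of the fixed part, and self-dual Chow-Kunneth decompositions of fibres

Let `g : Z ⟶ S` be a morphism of smooth projective varieties over a field whose cohomology has the
decomposition into perverse pieces given by the decomposition theorem (`PerverseDecomposition`).
Suppose that the total space `Z` satisfies the standard conjecture B and that the homologically
trivial self-correspondences of degree zero of `Z` are nilpotent. No such condition is imposed on the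
fibres. Then:

* each smooth fibre `F` has a self-dual system `ρ` of projectors onto the fixed parts of the groups
  `H^j(F)`: the transpose of `ρ_j` is `ρ_(2 dim F - j)`;
* every system of such projectors is isomorphic to a self-dual one;
* if for `j ≠ dim F` the space `H^j(F)` is spanned by the fixed part and the classes of algebraic
  cycles, then every self-dual system `ρ` is part of a self-dual Chow-Kunneth decomposition `π` of `F`:
  the motive `(F, ρ_j)` is a direct factor of `h^j(F) = (F, π_j)`.
-/

open CategoryTheory AlgebraicGeometry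

universe u v

namespace Pool.Agent.Results.MP_8a7054_ag.SelfDualFixedPart

open Pool.Agent.H914 Pool.Agent.H914.VarClass Pool.Agent.H914.VarClass.Obj Pool.Agent.W498.Dom
  Pool.Agent.Y106.CG

theorem result {k : Type u} [Field k] {𝒱 : VarClass k} {ops : CycleOps 𝒱}
    {W : WeilCohomology.{u, v} ops} {R : CycRel 𝒱} (hR : IsChow W R)
    {Z S : 𝒱.Obj} {g : Z ⟶ S} {G : S.Cycles} {E D : Z.Cycles}
    (hG : S.IsCyc 1 G) (hE : Z.IsCyc 1 E) (Q : PerverseDecomposition W g G E)
    (hB : StandardB W Z D) (hN : NilHomTrivial W R Z) :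
    (∀ (F : 𝒱.Obj) (i : F ⟶ Z), IsSmoothFibre Q i →
      ∃ ρ, IsFixedSystem W R i ρ ∧ IsSelfDual ops R ρ) ∧
    (∀ (F : 𝒱.Obj) (i : F ⟶ Z) (ρ : ℕ → (F.prod F).Cycles), IsSmoothFibre Q i →
      IsFixedSystem W R i ρ → ∃ ρ', IsFixedSystem W R i ρ' ∧ IsSelfDual ops R ρ' ∧
        ∀ j, IsoByTransport W R i i j (ρ j) (ρ' j)) ∧
    (∀ (F : 𝒱.Obj) (i : F ⟶ Z) (ρ : ℕ → (F.prod F).Cycles), IsSmoothFibre Q i →
      IsFixedSystem W R i ρ → IsSelfDual ops R ρ → FixedOrAlgebraic W i →
      ∃ π, IsCKDec W R F π ∧ IsSelfDual ops R π ∧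
        ∀ j, R.Eqv (compCyc ops (π j) (ρ j)) (ρ j) ∧ R.Eqv (compCyc ops (ρ j) (π j)) (ρ j)) :=
  Pool.Agent.Y106.CG.topDual hR hG hE Q hB hN

end Pool.Agent.Results.MP_8a7054_ag.SelfDualFixedPart
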