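import Pool.Agent.Y148.ZC.AlgSD
import Pool.Agent.Y148.ZC.SDDefs

/-!
# Self-dual Chow-Künneth decompositions from zero-cycles

**Theorem.** For smooth projective complex varieties the following statements are equivalent.

1. Every `X` has a self-dual Chow-Künneth decomposition, and each homologically trivial
   `G ∈ CH^d(X × X)`, `d = dim X`, satisfies an algebraic equation `f(G) = 0`, `f ∈ ℚ[t]` nonzero.
2. The Künneth conjecture holds, and each homologically trivial `G ∈ CH^d(X × X)` satisfies an
   algebraic equation.
3. The Künneth conjecture holds, and for all `X`, each homologically trivial `G ∈ CH^d(X × X)` and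
   each zero-cycle `x` on `X` the zero-cycles `x, G_* x, (G_*)^2 x, …` are linearly dependent in
   `CH_0(X)` (with rational coefficients).

So all varieties have self-dual Chow-Künneth decompositions if the Künneth conjecture holds and the
orbits of zero-cycles under homologically trivial self-correspondences span finite-dimensional
spaces. This allows phantoms (nonzero homologically trivial idempotents), on which nothing is
nilpotent; if nilpotence is known the existence of self-dual decompositions is known.

The theorem of Bloch and Srinivas is the hypothesis `BlochSrinivas`, see
`Pool.Agent.Results.MP_868bb7_ag.ZeroCycles`; the base field may be any uncountable algebraically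
closed field, and `H` any Weil cohomology theory.

## Proof

3 → 2 is as in `MP_638e8a_ag.AlgebraicOnZeroCycles`, which also gives Chow-Künneth decompositions
`π`. 2 → 1: let `π'_j = ᵗπ_(2d - j)` be the dual decomposition, and put
`x = (∑ j π_j + ∑ j π'_j) / 2`. Then `x` acts on `H^j(X)` as `j`, and `ᵗx = 2 d - x`. The product
`L(x)`, `L = ∏ (t - j)`, is homologically trivial and therefore algebraic, so `M(x) = 0` for a nonzero
polynomial `M` divisible by `L` with `M(2 d - t) = M(t)`. For `j < d` let `p_j` be a polynomial which
is 1 modulo the power of `t - j` in `M` and 0 modulo the other factor. Then the `p_j(x)`, `j < d`, and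
their transposes `p_j(2 d - x)` are orthogonal idempotents with the required actions on cohomology,
and the rest of the identity is the middle projector.
-/

open CategoryTheory AlgebraicGeometry

universe u v w

namespace Pool.Agent.Results.MP_8a7054_ag.SelfDualFromZeroCycles

open Pool.Agent.H914 Pool.Agent.W492.BB Pool.Agent.TH133 Pool.Agent.Y148.ZC

/-- Self-dual Chow-Künneth decompositions and algebraicity of homologically trivial correspondences
from zero-cycles. -/
theorem result {k : Type u} [Field k] {𝒱 : VarClass k}
    (C : TheoryData.{u, v, 0} 𝒱 ℚ) [IsChowProj C] {K : Type w} [Field K]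
    (H : WeilTheoryData.{u, v, w} C K) [IsWeilProj H] (hS : BlochSrinivas C) :
    List.TFAE [AllSelfDual H ∧ HomTrivialAlgebraic H,
      KunnethConjecture H ∧ HomTrivialAlgebraic H,
      KunnethConjecture H ∧ AlgebraicOnZeroCycles H] :=
  sd_main hS

end Pool.Agent.Results.MP_8a7054_ag.SelfDualFromZeroCycles
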